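import Pool.Agent.J6H38.DX.Stm
import Pool.Agent.J6H64.NX.GL
import Pool.Agent.J6H99.NX.Exp

/-!
# Planar first-passage percolation: every geodesic ray is directed in a face

Port of `Pool/Agent/J6H51/DIR/PlanA.lean` to weights with an exponential moment.
-/

set_option autoImplicit false

open MeasureTheory ProbabilityTheory Filter Topology
open scoped ENNReal

namespace Pool.Agent.J6H51.DX

open Pool.Agent.J6H99.NX Pool.Agent.J6H38.DX Pool.Agent.J6H64.NX

variable {e : ℕ} {q : Par} {F : Measure ℝ} [IsProbabilityMeasure F] [MB q F]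

lemma isCompact_sphere (e : ℕ) : IsCompact {y : E e | nr y = 1} := by
  have hcont : Continuous fun y : E e => nr y := by unfold nr; fun_prop
  refine Metric.isCompact_of_isClosed_isBounded (isClosed_eq hcont continuous_const) ?_
  refine Metric.isBounded_iff_subset_closedBall (0 : E e) |>.2 ⟨1, fun y hy => ?_⟩
  have hy' : nr y = 1 := hy
  rw [mem_closedBall_zero_iff, pi_norm_le_iff_of_nonneg (by norm_num)]
  intro i
  rw [Real.norm_eq_abs, ← hy']
  exact abs_coord_le y i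

lemma nhds_nr (y : E e) {ε : ℝ} (hε : 0 < ε) : {y' : E e | nr (y' - y) < ε} ∈ 𝓝 y := by
  have hcont : Continuous fun y' : E e => nr (y' - y) := by unfold nr; fun_prop
  exact (isOpen_lt hcont continuous_const).mem_nhds (by simpa using hε)

/-- near a supported direction there is almost equality -/
lemma near_of_supp {c y : E e} (h : Supp q F c y) {η : ℝ} (hη : 0 < η) :
    ∃ ε : ℝ, 0 < ε ∧ ∃ n0 : ℕ, ∀ z : V e, (n0 : ℤ) ≤ n1 z →
      nr ((n1 z : ℝ)⁻¹ • vc z - y) < ε → g q F z ≤ lf c z + η * n1 z := by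
  have hb := q.hb
  have hnc := nr_nonneg c
  have hK : 0 < 1 + q.b + nr c := by linarith
  refine ⟨η / (4 * (1 + q.b + nr c)), by positivity, ?_⟩
  set ε : ℝ := η / (4 * (1 + q.b + nr c)) with hε
  have hε0 : 0 < ε := by positivity
  obtain ⟨N1, hN1⟩ := eventually_atTop.1 (h.2 (η / 4) (by positivity))
  obtain ⟨N2, hN2⟩ := exists_nat_ge (q.b * ((e : ℝ) + 2) / (η / 4))
  refine ⟨max (max N1 N2) 1, fun z hz hzy => ?_⟩
  obtain ⟨n, hn⟩ : ∃ n : ℕ, (n : ℤ) = n1 z := ⟨(n1 z).toNat, Int.toNat_of_nonneg (n1_nonneg z)⟩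
  have hnr : (n1 z : ℝ) = n := by rw [← hn]; simp
  have hn1 : max (max N1 N2) 1 ≤ n := by
    have : ((max (max N1 N2) 1 : ℕ) : ℤ) ≤ n := by rw [hn]; exact hz
    exact_mod_cast this
  have hn2 : N1 ≤ n := (le_max_left _ _).trans ((le_max_left _ _).trans hn1)
  have hn3 : N2 ≤ n := (le_max_right _ _).trans ((le_max_left _ _).trans hn1)
  have hn4 : 1 ≤ n := (le_max_right _ _).trans hn1
  have hn0 : (0 : ℝ) < n := by exact_mod_cast hn4
  rw [hnr] at hzy ⊢
  have h1 := hN1 n hn2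
  have h2 : q.b * ((e : ℝ) + 2) ≤ n * (η / 4) := by
    have : q.b * ((e : ℝ) + 2) / (η / 4) ≤ n := hN2.trans (by exact_mod_cast hn3)
    rwa [div_le_iff₀ (by positivity)] at this
  have h3 := g_sub_le q F z (rnd ((n : ℝ) • y))
  have h4 : nr (vc z - (n : ℝ) • y) ≤ n * ε := by
    have e1 : vc z - (n : ℝ) • y = (n : ℝ) • ((n : ℝ)⁻¹ • vc z - y) := by
      rw [smul_sub, smul_smul, mul_inv_cancel₀ hn0.ne', one_smul]
    rw [e1, nr_smul, abs_of_pos hn0]
    exact mul_le_mul_of_nonneg_left hzy.le hn0.le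
  have h5 : (n1 (z - rnd ((n : ℝ) • y)) : ℝ) ≤ n * ε + ((e : ℝ) + 2) := by
    rw [← nr_vc, vc_sub]
    have e1 := nr_tri (vc z) ((n : ℝ) • y) (vc (rnd ((n : ℝ) • y)))
    have e2 := nr_rnd_sub ((n : ℝ) • y)
    rw [nr_sub_comm] at e2
    linarith
  have h6 := mul_le_mul_of_nonneg_left h5 hb.le
  have h7 : n * dt c y ≤ lf c z + nr c * (n * ε) := by
    have e1 := abs_le.1 (abs_dt_le c (vc z - (n : ℝ) • y))
    rw [dt_sub, dt_smul] at e1
    have e2 := mul_le_mul_of_nonneg_left h4 hnc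
    have e3 : lf c z = dt c (vc z) := rfl
    rw [e3]
    linarith [e1.1]
  have h9 : ε * (1 + q.b + nr c) = η / 4 := by
    rw [hε]; field_simp
  have h10 : n * (ε * (1 + q.b + nr c)) = n * (η / 4) := by rw [h9]
  have h11 : 0 ≤ n * ε := by positivity
  have h12 : n * (ε * (1 + q.b + nr c)) = n * ε + q.b * (n * ε) + nr c * (n * ε) := by ring
  have h13 : q.b * (n * ε + ((e : ℝ) + 2)) = q.b * (n * ε) + q.b * ((e : ℝ) + 2) := by ring
  have h14 : n * (η / 4) = η * n / 4 := by ring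
  have h15 : η / 4 * n = η * n / 4 := by ring
  have h16 : 0 < η * n := by positivity
  have h17 : n * (dt c y + η / 4) = n * dt c y + η * n / 4 := by ring
  have h18 : (dt c y + η / 4) * n = n * dt c y + η * n / 4 := by ring
  have h19 : (n:ℝ) * dt c y = dt c y * n := by ring
  linarith

/-- the opposite functional supports in the opposite direction -/
lemma supp_neg {c y : E e} (h : Supp q F c y) : Supp q F (-c) (-y) := by
  have hc : ∀ x : V e, lf (-c) x ≤ g q F x := by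
    intro x
    have h1 := h.1 (-x)
    rw [Pool.Agent.J6H99.NX.g_neg, lf_neg] at h1
    have h2 : lf (-c) x = -lf c x := neg_dt c (vc x)
    rw [h2]; exact h1
  refine ⟨hc, fun δ hδ => ?_⟩
  obtain ⟨N0, hN0⟩ := exists_nat_ge (q.b * (2 * ((e : ℝ) + 2)) / (δ / 2))
  filter_upwards [h.2 (δ / 2) (by positivity), eventually_ge_atTop N0] with n h1 h2
  have hb := q.hb
  have h3 : q.b * (2 * ((e : ℝ) + 2)) ≤ n * (δ / 2) := by
    have : q.b * (2 * ((e : ℝ) + 2)) / (δ / 2) ≤ n := hN0.trans (by exact_mod_cast h2)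
    rwa [div_le_iff₀ (by positivity)] at this
  have h4 := g_sub_le q F (rnd ((n : ℝ) • (-y))) (-rnd ((n : ℝ) • y))
  rw [Pool.Agent.J6H99.NX.g_neg] at h4
  have h5 : (n1 (rnd ((n : ℝ) • (-y)) - -rnd ((n : ℝ) • y)) : ℝ) ≤ 2 * ((e : ℝ) + 2) := by
    rw [← nr_vc, vc_sub, vc_neg]
    have e1 := nr_rnd_sub ((n : ℝ) • (-y))
    have e2 := nr_rnd_sub ((n : ℝ) • y)
    have e3 := nr_add_le (vc (rnd ((n : ℝ) • (-y))) - (n : ℝ) • (-y))
      (vc (rnd ((n : ℝ) • y)) - (n : ℝ) • y)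
    have e4 : vc (rnd ((n : ℝ) • (-y))) - -vc (rnd ((n : ℝ) • y)) =
        (vc (rnd ((n : ℝ) • (-y))) - (n : ℝ) • (-y)) + (vc (rnd ((n : ℝ) • y)) - (n : ℝ) • y) := by
      rw [smul_neg]; abel
    rw [e4]
    linarith
  have h6 := mul_le_mul_of_nonneg_left h5 hb.le
  have h7 : dt (-c) (-y) = dt c y := by rw [neg_dt, dt_neg, neg_neg]
  rw [h7]
  linarith

lemma ball_finite (K : ℤ) : {x : V e | n1 x ≤ K}.Finite := by
  refine (Set.finite_Icc (fun _ => -K : V e) (fun _ => K)).subset fun x hx => ?_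
  have h : ∀ i, |x i| ≤ K := fun i => (coord_le_n1 x i).trans hx
  exact ⟨fun i => (abs_le.1 (h i)).1, fun i => (abs_le.1 (h i)).2⟩

lemma eventually_far {x : ℕ → V e} (hx : Function.Injective x) (K : ℤ) :
    ∀ᶠ n in atTop, K ≤ n1 (x n) := by
  have h1 : (x ⁻¹' {z : V e | n1 z ≤ K}).Finite := (ball_finite K).preimage hx.injOn
  have h2 := h1.compl_mem_cofinite
  rw [Nat.cofinite_eq_atTop] at h2
  filter_upwards [h2] with n hn
  have : ¬ n1 (x n) ≤ K := hn
  omega

/-- the normalized vector -/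
noncomputable def nz (x : V e) : E e := (n1 x : ℝ)⁻¹ • vc x

lemma nr_nz {x : V e} (h : 1 ≤ n1 x) : nr (nz x) = 1 := by
  have h1 : (0 : ℝ) < n1 x := by exact_mod_cast (by omega : 0 < n1 x)
  unfold nz
  rw [nr_smul, nr_vc, abs_of_pos (inv_pos.2 h1), inv_mul_cancel₀ h1.ne']

lemma ne_zero_of_nr {y : E e} (h : nr y = 1) : y ≠ 0 := by
  rintro rfl; simp at h

/-- a cluster point of the directions of a directed sequence supports the functional -/
lemma supp_of_dir {c y : E e} {x : ℕ → V e} (hx : Function.Injective x)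
    (hc : ∀ z : V e, lf c z ≤ g q F z) (hd : Dir q F c x)
    (hy : ∀ ε : ℝ, 0 < ε → ∃ᶠ n in atTop, nr (nz (x n) - y) < ε) : Supp q F c y := by
  refine supp_of_approx hc fun ε hε => ?_
  obtain ⟨n, h1, h2, h3⟩ := ((hy ε hε).and_eventually
    ((hd ε hε).and (eventually_far hx 1))).exists
  exact ⟨x n, by omega, h1.le, h2⟩

/-- the walk along a sequence -/
lemma walk_along {x : ℕ → V e} (hx : ∀ n, (lat e).Adj (x n) (x (n + 1))) (i j : ℕ) (hij : i ≤ j) :
    ∃ P : (lat e).Walk (x i) (x j), ∀ v ∈ P.support, ∃ k, i ≤ k ∧ v = x k := by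
  induction j, hij using Nat.le_induction with
  | base => exact ⟨SimpleGraph.Walk.nil, fun v hv => ⟨i, le_rfl, by simpa using hv⟩⟩
  | succ j hij ih =>
    obtain ⟨P, hP⟩ := ih
    refine ⟨P.append (SimpleGraph.Walk.cons (hx j) SimpleGraph.Walk.nil), fun v hv => ?_⟩
    rw [SimpleGraph.Walk.mem_support_append_iff] at hv
    rcases hv with hv | hv
    · exact hP v hv
    · rw [SimpleGraph.Walk.support_cons, SimpleGraph.Walk.support_nil] at hv
      rcases List.mem_cons.1 hv with hv | hv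
      · exact ⟨j, hij, hv⟩
      · rw [List.mem_singleton] at hv
        exact ⟨j + 1, by omega, hv⟩

/-- a ray which meets another one infinitely often is equal to it -/
lemma eq_of_meet {ω : Om e} (hU : Uniq q ω) {x X : ℕ → V e} (hx : Ray q ω x) (hX : Ray q ω X)
    (h : ∀ N : ℕ, ∃ n, N ≤ n ∧ ∃ m, x n = X m) : x = X := by
  funext k
  obtain ⟨n, hn, m, hm⟩ := h k
  obtain ⟨h1, h2⟩ := hU x X hx hX n m hm
  exact h2 k hn

lemma cr_self (y : E 0) : cr y y = 0 := by unfold cr; ring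

lemma cr_neg_right (y k : E 0) : cr y (-k) = -cr y k := by
  unfold cr; simp only [Pi.neg_apply]; ring

lemma cr_neg_left (y k : E 0) : cr (-y) k = -cr y k := by
  unfold cr; simp only [Pi.neg_apply]; ring

theorem plana : PlanAT := by
  intro hT hC hB q F _ _ hV hFar hS ω hU hR x hx
  obtain ⟨hx0, hxa, hxi, _⟩ := id hx
  have hK := isCompact_sphere 0
  -- a first cluster point
  have hev : ∀ᶠ n in atTop, nz (x n) ∈ {y : E 0 | nr y = 1} := by
    filter_upwards [eventually_far hxi 1] with n hn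
    exact nr_nz hn
  obtain ⟨y0, hy0, hcl0⟩ := hK.exists_mapClusterPt_of_frequently hev.frequently
  have hy0' : nr y0 = 1 := hy0
  have hfr0 : ∀ ε : ℝ, 0 < ε → ∃ᶠ n in atTop, nr (nz (x n) - y0) < ε := fun ε hε =>
    (mapClusterPt_iff_frequently.1 hcl0) _ (nhds_nr y0 hε)
  obtain ⟨c0, hsupp0, hdif0, hpos0, huniq0⟩ := hS y0 (ne_zero_of_nr hy0')
  refine ⟨c0, y0, ne_zero_of_nr hy0', hsupp0, ?_⟩
  by_contra hnd
  unfold Dir at hnd
  push Not at hnd
  obtain ⟨η, hη, hnd⟩ := hnd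
  -- a second cluster point
  set S : Set ℕ := {k | ¬ g q F (x k) ≤ lf c0 (x k) + η * n1 (x k)} with hSdef
  have hSf : ∃ᶠ k in atTop, k ∈ S := by
    have h1 : ¬ ∀ᶠ k in atTop, g q F (x k) ≤ lf c0 (x k) + η * n1 (x k) := by
      intro h; exact hnd (by simpa using h)
    exact Filter.not_eventually.1 h1
  have : NeBot (atTop ⊓ 𝓟 S : Filter ℕ) := Filter.frequently_mem_iff_neBot.1 hSf
  have hev' : ∀ᶠ n in (atTop ⊓ 𝓟 S : Filter ℕ), nz (x n) ∈ {y : E 0 | nr y = 1} :=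
    hev.filter_mono inf_le_left
  obtain ⟨y1, hy1, hcl1⟩ := hK.exists_mapClusterPt_of_frequently hev'.frequently
  have hy1' : nr y1 = 1 := hy1
  have hfr1' : ∀ ε : ℝ, 0 < ε → ∃ᶠ n in atTop, n ∈ S ∧ nr (nz (x n) - y1) < ε := fun ε hε =>
    Filter.frequently_inf_principal.1 ((mapClusterPt_iff_frequently.1 hcl1) _ (nhds_nr y1 hε))
  have hfr1 : ∀ ε : ℝ, 0 < ε → ∃ᶠ n in atTop, nr (nz (x n) - y1) < ε := fun ε hε =>
    (hfr1' ε hε).mono fun n hn => hn.2
  have hns : ¬ Supp q F c0 y1 := by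
    intro h
    obtain ⟨ε, hε, n0, h1⟩ := near_of_supp h hη
    obtain ⟨n, ⟨h2, h3⟩, h4⟩ := ((hfr1' ε hε).and_eventually (eventually_far hxi n0)).exists
    exact h2 (h1 (x n) h4 h3)
  -- a rational face in between
  obtain ⟨c, v, hv, hsv, hcase⟩ := hB q F hFar hS c0 y0 y1 (ne_zero_of_nr hy0')
    (ne_zero_of_nr hy1') hsupp0 hns
  have hvc : vc v ≠ 0 := by
    intro h
    apply hv
    have h1 : (n1 v : ℝ) = 0 := by rw [← nr_vc, h, nr_zero]
    have h2 : n1 v = 0 := by exact_mod_cast h1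
    exact eq_of_n1 (by simpa using h2)
  obtain ⟨X, hX, hXd⟩ := hR c v hv hsv
  have hsv' : Supp q F (-c) (vc (-v)) := by rw [vc_neg]; exact supp_neg hsv
  obtain ⟨X', hX', hXd'⟩ := hR (-c) (-v) (neg_ne_zero.2 hv) hsv'
  -- the ray meets the two others finitely often
  have hne : ∀ k : E 0, k ≠ 0 → Supp q F c k → k ≠ y0 ∧ k ≠ -y0 := by
    intro k hk hs
    rcases hcase with h | h
    · obtain ⟨h1, h2⟩ := h k hk hs
      constructor
      · rintro rfl; rw [cr_self] at h1; exact lt_irrefl _ h1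
      · rintro rfl; rw [cr_neg_right, cr_self, neg_zero] at h1; exact lt_irrefl _ h1
    · obtain ⟨h1, h2⟩ := h k hk hs
      constructor
      · rintro rfl; rw [cr_self] at h2; exact lt_irrefl _ h2
      · rintro rfl; rw [cr_neg_left, cr_self, neg_zero] at h2; exact lt_irrefl _ h2
  have hmX : ∃ N : ℕ, ∀ n, N ≤ n → ∀ m, x n ≠ X m := by
    by_contra h
    push Not at h
    have h1 := eq_of_meet hU hx hX h
    rw [← h1] at hXd
    have h2 := supp_of_dir hxi hsv.1 hXd hfr0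
    exact (hne y0 (ne_zero_of_nr hy0') h2).1 rfl
  have hmX' : ∃ N : ℕ, ∀ n, N ≤ n → ∀ m, x n ≠ X' m := by
    by_contra h
    push Not at h
    have h1 := eq_of_meet hU hx hX' h
    rw [← h1] at hXd'
    have h2 := supp_of_dir hxi hsv'.1 hXd' hfr0
    have h3 := supp_neg h2
    rw [neg_neg] at h3
    exact (hne (-y0) (neg_ne_zero.2 (ne_zero_of_nr hy0')) h3).2 rfl
  obtain ⟨N, hN⟩ := hmX
  obtain ⟨N', hN'⟩ := hmX'
  -- the two cases are the same up to exchanging `y0` and `y1`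
  have key : ∀ z0 z1 : E 0, nr z0 = 1 → nr z1 = 1 →
      (∀ ε : ℝ, 0 < ε → ∃ᶠ n in atTop, nr (nz (x n) - z0) < ε) →
      (∀ ε : ℝ, 0 < ε → ∃ᶠ n in atTop, nr (nz (x n) - z1) < ε) →
      (∀ k : E 0, k ≠ 0 → Supp q F c k → 0 < cr z0 k ∧ 0 < cr k z1) → False := by
    intro z0 z1 hz0 hz1 hf0 hf1 hcr
    obtain ⟨R, ε, hε, hcore⟩ := hC hT q F hV hFar hS c (vc v) hvc hsv X X' hX.1 hX'.1 hX.2.1
      hX'.2.1 hX.2.2.1 hX'.2.2.1 hXd hXd' z0 z1 hcr
    obtain ⟨R', hR'⟩ := exists_int_ge R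
    have hcond : ∀ (n : ℕ) (z : E 0), nr z = 1 → nr (nz (x n) - z) < ε → 1 ≤ n1 (x n) →
        nr (vc (x n) - (n1 (x n) / nr z : ℝ) • z) ≤ ε * n1 (x n) := by
      intro n z hz h1 h2
      have h3 : (0 : ℝ) < n1 (x n) := by exact_mod_cast (by omega : 0 < n1 (x n))
      have e1 : vc (x n) - (n1 (x n) / nr z : ℝ) • z = (n1 (x n) : ℝ) • (nz (x n) - z) := by
        unfold nz
        rw [hz, div_one, smul_sub, smul_smul, mul_inv_cancel₀ h3.ne', one_smul]
      rw [e1, nr_smul, abs_of_pos h3, mul_comm]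
      exact mul_le_mul_of_nonneg_right h1.le h3.le
    obtain ⟨i, hi1, hi2, hi3, hi4⟩ := ((hf1 ε hε).and_eventually
      ((eventually_far hxi (max R' 1)).and ((eventually_ge_atTop N).and
        (eventually_ge_atTop N')))).exists
    obtain ⟨j, hj1, hj2, hj3⟩ := ((hf0 ε hε).and_eventually
      ((eventually_far hxi (max R' 1)).and (eventually_ge_atTop i))).exists
    obtain ⟨P, hP⟩ := walk_along hxa i j hj3
    have hRi : R ≤ n1 (x i) := hR'.trans (by exact_mod_cast (le_max_left R' 1).trans hi2)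
    have hRj : R ≤ n1 (x j) := hR'.trans (by exact_mod_cast (le_max_left R' 1).trans hj2)
    refine hcore (x i) (x j) P hRi hRj (hcond i z1 hz1 hi1 ((le_max_right R' 1).trans hi2))
      (hcond j z0 hz0 hj1 ((le_max_right R' 1).trans hj2)) ?_ ?_
    · intro n hn
      obtain ⟨k, hk1, hk2⟩ := hP _ hn
      exact hN k (hi3.trans hk1) n hk2.symm
    · intro n hn
      obtain ⟨k, hk1, hk2⟩ := hP _ hn
      exact hN' k (hi4.trans hk1) n hk2.symm
  rcases hcase with h | h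
  · exact key y0 y1 hy0' hy1' hfr0 hfr1 h
  · exact key y1 y0 hy1' hy0' hfr1 hfr0 h

end Pool.Agent.J6H51.DX
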